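import Mathlib
import Pool.Agent.H.MP_ad6ded_lc.A

namespace Pool.Agent.Results.MP_ad6ded_lc.NotAuto

open Pool.Agent.H.MP_ad6ded_lc

def x : ℕ → List ℕ
  | 0 => [1, 2]
  | n + 1 => x n ++ x n ++ (x n).reverse ++ (x n).reverse ++ [2]

def kernel (k : ℕ) (a : ℕ → ℕ) : Set (ℕ → ℕ) :=
  {f | ∃ e j : ℕ, j < k ^ e ∧ f = fun n => a (k ^ e * n + j)}

lemma x_eq (n : ℕ) : x n = X n := by
  induction n with
  | zero => rfl
  | succ n ih => rw [x, X, ih]

lemma x_len (n : ℕ) : n < (x n).length := by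
  induction n with
  | zero => simp [x]
  | succ n ih => rw [x]; simp; omega

lemma x_pre (n j : ℕ) : ∃ Y, x (n + j) = x n ++ Y := by
  induction j with
  | zero => exact ⟨[], by simp⟩
  | succ j ih =>
    obtain ⟨Y, h⟩ := ih
    refine ⟨Y ++ (x (n + j) ++ (x (n + j)).reverse ++ (x (n + j)).reverse ++ [2]), ?_⟩
    rw [← add_assoc, x]
    nth_rw 1 [h]
    simp

theorem result :
    (∃ a : ℕ → ℕ, ∀ n i (h : i < (x n).length), a i = (x n)[i]) ∧
    ∀ a : ℕ → ℕ, (∀ n i (h : i < (x n).length), a i = (x n)[i]) →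
      ∀ k, 2 ≤ k → ¬ (kernel k a).Finite := by
  constructor
  · refine ⟨fun i => (x i)[i]'(x_len i), fun n i h => ?_⟩
    rcases le_total n i with c | c
    · obtain ⟨j, rfl⟩ := Nat.exists_eq_add_of_le c
      obtain ⟨Y, e⟩ := x_pre n j
      simp only [e]
      rw [List.getElem_append_left h]
    · obtain ⟨j, rfl⟩ := Nat.exists_eq_add_of_le c
      obtain ⟨Y, e⟩ := x_pre i j
      simp only [e]
      rw [List.getElem_append_left (x_len i)]
  · intro a ha k hk hfin
    have h1 : ∀ i, a i = 1 ↔ One i := by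
      intro i
      have e : x i = W 0 (4 ^ i) := (x_eq i).trans (X_eq i).1
      have hl := x_len i
      rw [← W_one (4 ^ i) i (by rwa [← W_len, ← e]), ← e, ha i i hl, List.getD_eq_getElem _ _ hl]
    have := hfin.to_subtype
    have key : ∀ s s', (fun f : kernel k a => f.1 (7 * Ns s) = 1) =
        (fun f : kernel k a => f.1 (7 * Ns s') = 1) →
        ∀ u, ∀ r < k ^ u, One (k ^ u * (7 * Ns s) + r) ↔ One (k ^ u * (7 * Ns s') + r) := by
      intro s s' h u r hr
      have := congrFun h ⟨_, u, r, hr, rfl⟩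
      rw [← h1, ← h1]
      exact iff_of_eq this
    obtain ⟨s, s', hne, h⟩ := Finite.exists_ne_map_eq_of_infinite
      (fun s => fun f : kernel k a => f.1 (7 * Ns s) = 1)
    rcases lt_or_gt_of_ne hne with c | c
    · exact main k hk s s' c (key s s' h)
    · exact main k hk s' s c (key s' s h.symm)

end Pool.Agent.Results.MP_ad6ded_lc.NotAuto
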